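import Mathlib

set_option autoImplicit false

/-!
Non-Hausdorff manifolds: definitions.
-/

universe u

namespace Q178.HNH

/-- An `n`-manifold: a connected space in which every point has an open neighbourhood
homeomorphic to `ℝⁿ`. No separation axiom is assumed. -/
structure IsMfd (n : ℕ) (M : Type u) [TopologicalSpace M] : Prop where
  connected : ConnectedSpace M
  euclidean : ∀ x : M, ∃ U : Set M, IsOpen U ∧ x ∈ U ∧
    Nonempty (U ≃ₜ EuclideanSpace ℝ (Fin n))

/-- A space is homogeneous if its homeomorphism group acts transitively. -/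
def IsHomogeneous (M : Type u) [TopologicalSpace M] : Prop :=
  ∀ x y : M, ∃ h : M ≃ₜ M, h x = y

/-- An HNH-`n`-manifold: a homogeneous non-Hausdorff `n`-manifold. -/
structure IsHNH (n : ℕ) (M : Type u) [TopologicalSpace M] : Prop where
  manifold : IsMfd n M
  homogeneous : IsHomogeneous M
  notHausdorff : ¬ T2Space M

/-- The set of points `y ≠ z` which cannot be separated from `z` by open sets. -/
def NH {M : Type u} [TopologicalSpace M] (z : M) : Set M :=
  {y | y ≠ z ∧ ∀ U V : Set M, IsOpen U → IsOpen V → y ∈ U → z ∈ V → (U ∩ V).Nonempty}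

end Q178.HNH
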