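import Pool.Agent.Q178.HNH.Space

set_option autoImplicit false
set_option linter.unusedSectionVars false

/-!
Homogeneity of the manifold.
-/

universe u

namespace Q178.HNH

open Set Filter Topology

variable {G : Type u} [AddCommGroup G] [TopologicalSpace G] [IsTopologicalAddGroup G]
  {ω : ℝ → G}

/-- The conditions which make the swap map continuous. -/
structure Good (ω : ℝ → G) (r : ℝ → ℝ) (c : ℝ → G) : Prop where
  mono : ∀ s t, 0 < s → s < t → r s < r t
  pos : ∀ s, 0 < s → 0 < r s
  contr : ∀ s, 0 < s → ContinuousAt r s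
  contc : ∀ s, 0 < s → ContinuousAt c s
  zero : Tendsto r (𝓝[>] 0) (𝓝 0)
  c1 : Tendsto (fun s => c s - ω s) (𝓝[>] 0) (𝓝 0)
  c2 : Tendsto (fun s => c s + ω (r s)) (𝓝[>] 0) (𝓝 0)
  c3 : ∀ m, 0 < m → Tendsto (fun s => ω (r s - r m) - ω (s - m)) (𝓝[>] m) (𝓝 0)

/-- Piecewise limits. -/
lemma tendsto_ite_le {m : ℝ} {g : G} {f f' : ℝ × G → ℝ × G} {y : ℝ × G}
    (hf : Tendsto f (𝓝 (m, g)) (𝓝 y)) (hf' : Tendsto f' (𝓝[>] m ×ˢ 𝓝 g) (𝓝 y)) :
    Tendsto (fun p : ℝ × G => if p.1 ≤ m then f p else f' p) (𝓝 (m, g)) (𝓝 y) := by
  classical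
  have h3 : 𝓝[>] m ×ˢ 𝓝 g = 𝓝[{p : ℝ × G | m < p.1}] (m, g) := by
    have := nhdsWithin_prod_eq m g (Set.Ioi m) Set.univ
    rw [nhdsWithin_univ] at this
    rw [← this]
    congr 1
    ext p
    simp
  rw [h3] at hf'
  intro U hU
  have h1 := hf hU
  have h2 := mem_nhdsWithin_iff_eventually.1 (hf' hU)
  rw [mem_map] at *
  filter_upwards [h1, h2] with p hp1 hp2
  by_cases hp : p.1 ≤ m
  · simpa [hp] using hp1
  · have := hp2 (not_le.1 hp)
    simpa [hp] using this

/-- A point with empty address. -/
def pe (ω : ℝ → G) (s : ℝ) (g : G) : Mfd ω where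
  s := s
  A := ∅
  g := g
  le := by simp

lemma chart_pe {B : Finset ℝ} {p : ℝ × G} (h : ∀ b ∈ B, b < p.1) :
    chart ω B p = pe ω p.1 (p.2 - ∑ b ∈ B, ω (p.1 - b)) := by
  apply Mfd.ext'
  · rfl
  · change B.filter (fun b => p.1 ≤ b) = ∅
    rw [Finset.filter_eq_empty_iff]
    intro b hb
    exact not_le.2 (h b hb)
  · rfl

lemma sig_pe {r : ℝ → ℝ} {c : ℝ → G} {s : ℝ} (hs : 0 < s) (g : G) :
    sig ω r c (pe ω s g) = pe ω (r s) (g + c s) := by
  have h1 : mx (pe ω s g).A (pe ω s g).s = s := mx_eq le_rfl (by simp [pe]) (Or.inl rfl)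
  rw [sig_high _ (by rw [h1]; exact hs), h1]
  apply Mfd.ext'
  · change s + (r s - s) = r s
    ring
  · rfl
  · rfl

lemma continuous_sig {r : ℝ → ℝ} {c : ℝ → G} (hω : Osc ω) (hg : Good ω r c) :
    Continuous (sig ω r c) := by
  classical
  rw [continuous_iff_continuousAt]
  intro z
  rcases lt_or_ge 0 (mx z.A z.s) with hm | hm
  · -- high case
    set m := mx z.A z.s with hmdef
    have hsig : sig ω r c z = rot ω (c m) (transl ω (r m - m) z) := sig_high z hm
    have hmA : ∀ a ∈ z.A, a ≤ m := fun a ha => le_mx' z.s ha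
    rcases (le_mx z.A z.s).lt_or_eq with hlt | heq
    · have hmem : m ∈ z.A := by
        rcases mx_mem z.A z.s with h | h
        · exact absurd h hlt.ne'
        · exact h
      apply continuousAt_of hω z (fun p => (p.1 + (r m - m), p.2 + c m))
      · rw [hsig]
        exact Continuous.tendsto (by fun_prop) (z.s, z.g)
      · have h1 : ∀ᶠ p : ℝ × G in 𝓝 (z.s, z.g), p.1 < m :=
          continuous_fst.continuousAt.eventually (gt_mem_nhds hlt)
        filter_upwards [h1] with p hp
        have h2 : mx z.A p.1 = m := mx_eq hp.le hmA (Or.inr hmem)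
        rw [sig_chart_high z.A p h2 hm, hsig]
        rfl
    · have heq' : z.s = m := heq
      have hAm : ∀ a ∈ z.A, a = m := fun a ha => le_antisymm (hmA a ha) (heq' ▸ z.le a ha)
      have hpos : 0 < z.s := by rw [heq']; exact hm
      by_cases hA : z.A = ∅
      · apply continuousAt_of hω z (fun p => (r p.1, p.2 + c p.1))
        · rw [hsig]
          have h1 : ((rot ω (c m) (transl ω (r m - m) z)).s,
              (rot ω (c m) (transl ω (r m - m) z)).g) = (r z.s, z.g + c z.s) := by
            apply Prod.ext
            · change z.s + (r m - m) = r z.s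
              rw [← heq']
              ring
            · change z.g + c m = z.g + c z.s
              rw [heq']
          rw [h1]
          have h2 : ContinuousAt (fun p : ℝ × G => r p.1) (z.s, z.g) :=
            ContinuousAt.comp (f := Prod.fst) (hg.contr _ hpos) continuousAt_fst
          have h3 : ContinuousAt (fun p : ℝ × G => c p.1) (z.s, z.g) :=
            ContinuousAt.comp (f := Prod.fst) (hg.contc _ hpos) continuousAt_fst
          exact h2.prodMk (continuousAt_snd.add h3)
        · have h1 : ∀ᶠ p : ℝ × G in 𝓝 (z.s, z.g), 0 < p.1 :=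
            continuous_fst.continuousAt.eventually (lt_mem_nhds hpos)
          filter_upwards [h1] with p hp
          have h2 : (sig ω r c z).A = ∅ := by
            rw [hsig]
            change z.A.map (addRightEmbedding (r m - m)) = ∅
            rw [hA, Finset.map_empty]
          rw [h2, hA, chart_pe (by simp), chart_pe (by simp), sig_pe hp]
          simp
      · have hA' : z.A = {m} := by
          have hA := Finset.nonempty_of_ne_empty hA
          exact Finset.eq_singleton_iff_nonempty_unique_mem.2 ⟨hA, hAm⟩
        apply continuousAt_of hω z (fun p => if p.1 ≤ m then (p.1 + (r m - m), p.2 + c m)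
          else (r p.1, p.2 + c p.1 + (ω (r p.1 - r m) - ω (p.1 - m))))
        · rw [hsig]
          have h1 : ((rot ω (c m) (transl ω (r m - m) z)).s,
              (rot ω (c m) (transl ω (r m - m) z)).g) = (r m, z.g + c m) := by
            apply Prod.ext
            · change z.s + (r m - m) = r m
              rw [heq']
              ring
            · rfl
          rw [h1, heq']
          apply tendsto_ite_le
          · have h2 : Tendsto (fun p : ℝ × G => (p.1 + (r m - m), p.2 + c m)) (𝓝 (m, z.g))
                (𝓝 (m + (r m - m), z.g + c m)) := Continuous.tendsto (by fun_prop) (m, z.g)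
            have h3 : m + (r m - m) = r m := by ring
            rwa [h3] at h2
          · have hfst : Tendsto (fun p : ℝ × G => p.1) (𝓝[>] m ×ˢ 𝓝 z.g) (𝓝[>] m) :=
              tendsto_fst
            have hsnd : Tendsto (fun p : ℝ × G => p.2) (𝓝[>] m ×ˢ 𝓝 z.g) (𝓝 z.g) :=
              tendsto_snd
            have h2 : Tendsto (fun p : ℝ × G => r p.1) (𝓝[>] m ×ˢ 𝓝 z.g) (𝓝 (r m)) :=
              ((hg.contr m hm).tendsto.mono_left nhdsWithin_le_nhds).comp hfst
            have h3 : Tendsto (fun p : ℝ × G => c p.1) (𝓝[>] m ×ˢ 𝓝 z.g) (𝓝 (c m)) :=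
              ((hg.contc m hm).tendsto.mono_left nhdsWithin_le_nhds).comp hfst
            have h4 := (hg.c3 m hm).comp hfst
            have h5 := (hsnd.add h3).add h4
            rw [add_zero] at h5
            exact h2.prodMk_nhds h5
        · have h1 : ∀ᶠ p : ℝ × G in 𝓝 (z.s, z.g), 0 < p.1 :=
            continuous_fst.continuousAt.eventually (lt_mem_nhds hpos)
          filter_upwards [h1] with p hp
          by_cases hpm : p.1 ≤ m
          · rw [if_pos hpm]
            have h2 : mx z.A p.1 = m := mx_eq hpm hmA (Or.inr (by rw [hA']; simp))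
            rw [sig_chart_high z.A p h2 hm, hsig]
            rfl
          · rw [if_neg hpm]
            rw [not_le] at hpm
            have h2 : (sig ω r c z).A = {r m} := by
              rw [hsig]
              change z.A.map (addRightEmbedding (r m - m)) = {r m}
              rw [hA', Finset.map_singleton]
              simp
            rw [h2, hA', chart_pe (by simpa using hpm), sig_pe hp,
              chart_pe (by simpa using hg.mono m p.1 hm hpm)]
            simp only [Finset.sum_singleton]
            congr 1
            abel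
  · -- low case
    have hsig : sig ω r c z = toggle ω z ((le_mx _ _).trans hm) := sig_low z hm
    have hA0 : ∀ a ∈ z.A, a ≤ 0 := fun a ha => (le_mx' z.s ha).trans hm
    rcases ((le_mx z.A z.s).trans hm).lt_or_eq with hlt | heq
    · apply continuousAt_of hω z id
      · rw [hsig]
        exact tendsto_id
      · have h1 : ∀ᶠ p : ℝ × G in 𝓝 (z.s, z.g), p.1 < 0 :=
          continuous_fst.continuousAt.eventually (gt_mem_nhds hlt)
        filter_upwards [h1] with p hp
        have h2 : mx z.A p.1 ≤ 0 := by
          rcases mx_mem z.A p.1 with h | h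
          · rw [h]
            exact hp.le
          · exact hA0 _ h
        rw [sig_chart_low hω.neg z.A p h2, hsig]
        rfl
    · have hAm : ∀ a ∈ z.A, a = 0 := fun a ha => le_antisymm (hA0 a ha) (heq ▸ z.le a ha)
      have hlow : ∀ p : ℝ × G, p.1 ≤ 0 → sig ω r c (chart ω z.A p) = chart ω (sig ω r c z).A p := by
        intro p hp
        have h2 : mx z.A p.1 ≤ 0 := by
          rcases mx_mem z.A p.1 with h | h
          · rw [h]
            exact hp
          · exact hA0 _ h
        rw [sig_chart_low hω.neg z.A p h2, hsig]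
        rfl
      have hzs : ((sig ω r c z).s, (sig ω r c z).g) = (0, z.g) := by
        rw [hsig]
        apply Prod.ext
        · exact heq
        · rfl
      by_cases hA : z.A = ∅
      · apply continuousAt_of hω z (fun p => if p.1 ≤ 0 then p
          else (r p.1, p.2 + (c p.1 + ω (r p.1))))
        · rw [hzs, heq]
          apply tendsto_ite_le tendsto_id
          have hfst : Tendsto (fun p : ℝ × G => p.1) (𝓝[>] (0 : ℝ) ×ˢ 𝓝 z.g) (𝓝[>] 0) :=
            tendsto_fst
          have hsnd : Tendsto (fun p : ℝ × G => p.2) (𝓝[>] (0 : ℝ) ×ˢ 𝓝 z.g) (𝓝 z.g) :=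
            tendsto_snd
          have h2 := hg.zero.comp hfst
          have h3 := hsnd.add (hg.c2.comp hfst)
          rw [add_zero] at h3
          exact h2.prodMk_nhds h3
        · refine Eventually.of_forall fun p => ?_
          by_cases hp : p.1 ≤ 0
          · rw [if_pos hp]
            exact hlow p hp
          · rw [if_neg hp]
            rw [not_le] at hp
            have h2 : (sig ω r c z).A = {0} := by
              rw [hsig]
              change symmDiff z.A {0} = {0}
              rw [hA]
              simp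
            rw [h2, hA, chart_pe (by simp), sig_pe hp, chart_pe (by simpa using hg.pos _ hp)]
            simp only [Finset.sum_singleton, Finset.sum_empty, sub_zero]
            congr 1
            abel
      · have hA' : z.A = {0} := by
          have hA := Finset.nonempty_of_ne_empty hA
          exact Finset.eq_singleton_iff_nonempty_unique_mem.2 ⟨hA, hAm⟩
        apply continuousAt_of hω z (fun p => if p.1 ≤ 0 then p
          else (r p.1, p.2 + (c p.1 - ω p.1)))
        · rw [hzs, heq]
          apply tendsto_ite_le tendsto_id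
          have hfst : Tendsto (fun p : ℝ × G => p.1) (𝓝[>] (0 : ℝ) ×ˢ 𝓝 z.g) (𝓝[>] 0) :=
            tendsto_fst
          have hsnd : Tendsto (fun p : ℝ × G => p.2) (𝓝[>] (0 : ℝ) ×ˢ 𝓝 z.g) (𝓝 z.g) :=
            tendsto_snd
          have h2 := hg.zero.comp hfst
          have h3 := hsnd.add (hg.c1.comp hfst)
          rw [add_zero] at h3
          exact h2.prodMk_nhds h3
        · refine Eventually.of_forall fun p => ?_
          by_cases hp : p.1 ≤ 0
          · rw [if_pos hp]
            exact hlow p hp
          · rw [if_neg hp]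
            rw [not_le] at hp
            have h2 : (sig ω r c z).A = ∅ := by
              rw [hsig]
              change symmDiff z.A {0} = ∅
              rw [hA']
              simp
            rw [h2, hA', chart_pe (by simpa using hp), sig_pe hp, chart_pe (by simp)]
            simp only [Finset.sum_singleton, Finset.sum_empty, sub_zero]
            congr 1
            abel

lemma mx_map (B : Finset ℝ) (s t : ℝ) :
    mx (B.map (addRightEmbedding t)) (s + t) = mx B s + t := by
  apply mx_eq
  · linarith [le_mx B s]
  · intro b hb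
    obtain ⟨a, ha, rfl⟩ := Finset.mem_map.1 hb
    have := le_mx' s ha
    simpa using this
  · rcases mx_mem B s with h | h
    · left
      rw [h]
    · right
      exact Finset.mem_map.2 ⟨_, h, rfl⟩

lemma sig_sig {r r' : ℝ → ℝ} {c c' : ℝ → G} (hpos : ∀ s, 0 < s → 0 < r s)
    (hr : ∀ s, 0 < s → r' (r s) = s) (hc : ∀ s, 0 < s → c' (r s) = -c s) (z : Mfd ω) :
    sig ω r' c' (sig ω r c z) = z := by
  classical
  rcases lt_or_ge 0 (mx z.A z.s) with hm | hm
  · set m := mx z.A z.s with hmdef
    have h1 : sig ω r c z = rot ω (c m) (transl ω (r m - m) z) := sig_high z hm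
    have h2 : mx (sig ω r c z).A (sig ω r c z).s = r m := by
      rw [h1]
      change mx (z.A.map (addRightEmbedding (r m - m))) (z.s + (r m - m)) = r m
      rw [mx_map, ← hmdef]
      ring
    rw [sig_high _ (by rw [h2]; exact hpos m hm), h2, hr m hm, hc m hm, h1]
    have h3 := transl_transl ω (m - r m) (r m - m) z
    have h4 : r m - m + (m - r m) = 0 := by ring
    rw [h4, transl_zero] at h3
    apply Mfd.ext'
    · change (transl ω (m - r m) (transl ω (r m - m) z)).s = z.s
      rw [h3]
    · change (transl ω (m - r m) (transl ω (r m - m) z)).A = z.A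
      rw [h3]
    · change z.g + c m + -c m = z.g
      abel
  · have h1 : sig ω r c z = toggle ω z ((le_mx _ _).trans hm) := sig_low z hm
    have h2 : mx (sig ω r c z).A (sig ω r c z).s ≤ 0 := by
      rw [h1]
      rcases mx_mem (toggle ω z ((le_mx _ _).trans hm)).A
        (toggle ω z ((le_mx _ _).trans hm)).s with h | h
      · rw [h]
        exact (le_mx _ _).trans hm
      · change _ ∈ symmDiff z.A {0} at h
        rcases Finset.mem_symmDiff.1 h with h | h
        · exact (le_mx' z.s h.1).trans hm
        · exact (Finset.mem_singleton.1 h.1).le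
    rw [sig_low _ h2]
    apply Mfd.ext'
    · change (sig ω r c z).s = z.s
      rw [h1]
      rfl
    · change symmDiff (sig ω r c z).A {0} = z.A
      rw [h1]
      change symmDiff (symmDiff z.A {0}) {0} = z.A
      rw [symmDiff_symmDiff_cancel_right]
    · change (sig ω r c z).g = z.g
      rw [h1]
      rfl

/-! ### The two sets of data -/

lemma good_sq (hω : Osc ω) : Good ω (fun s => s ^ 2) ω where
  mono s t hs hst := by
    have : s * s < t * t := mul_self_lt_mul_self hs.le hst
    simpa [sq] using this
  pos s hs := by positivity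
  contr s _ := by fun_prop
  contc s hs := hω.cont.continuousAt (Ioi_mem_nhds hs)
  zero := by
    have h1 : Tendsto (fun s : ℝ => s ^ 2) (𝓝 0) (𝓝 (0 ^ 2)) :=
      (continuous_pow 2).tendsto 0
    rw [zero_pow two_ne_zero] at h1
    exact h1.mono_left nhdsWithin_le_nhds
  c1 := by
    simp only [sub_self]
    exact tendsto_const_nhds
  c2 := hω.sq
  c3 := hω.scale

lemma tendsto_sqrt_Ioi {m : ℝ} (hm : 0 ≤ m) :
    Tendsto Real.sqrt (𝓝[>] m) (𝓝[>] (Real.sqrt m)) := by
  apply tendsto_nhdsWithin_iff.2
  refine ⟨(Real.continuous_sqrt.tendsto m).mono_left nhdsWithin_le_nhds, ?_⟩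
  filter_upwards [self_mem_nhdsWithin] with s hs
  exact Real.sqrt_lt_sqrt hm hs

lemma good_sqrt (hω : Osc ω) : Good ω Real.sqrt (fun s => -ω (Real.sqrt s)) where
  mono s t hs hst := Real.sqrt_lt_sqrt hs.le hst
  pos s hs := Real.sqrt_pos.2 hs
  contr s _ := Real.continuous_sqrt.continuousAt
  contc s hs := by
    apply ContinuousAt.neg
    exact ContinuousAt.comp (hω.cont.continuousAt (Ioi_mem_nhds (Real.sqrt_pos.2 hs)))
      Real.continuous_sqrt.continuousAt
  zero := by
    have := (Real.continuous_sqrt.tendsto 0)
    rw [Real.sqrt_zero] at this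
    exact this.mono_left nhdsWithin_le_nhds
  c1 := by
    have h1 := tendsto_sqrt_Ioi (le_refl (0 : ℝ))
    rw [Real.sqrt_zero] at h1
    have h2 := (hω.sq.comp h1).neg
    rw [neg_zero] at h2
    refine h2.congr' ?_
    filter_upwards [self_mem_nhdsWithin] with s hs
    have hs' : (0 : ℝ) < s := hs
    simp only [Function.comp_apply]
    rw [Real.sq_sqrt hs'.le]
    abel
  c2 := by
    simp only [neg_add_cancel]
    exact tendsto_const_nhds
  c3 m hm := by
    have h1 := tendsto_sqrt_Ioi hm.le
    have h2 := ((hω.scale _ (Real.sqrt_pos.2 hm)).comp h1).neg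
    rw [neg_zero] at h2
    refine h2.congr' ?_
    filter_upwards [self_mem_nhdsWithin] with s hs
    have hs' : m < s := hs
    simp only [Function.comp_apply]
    rw [Real.sq_sqrt (hm.le.trans hs'.le), Real.sq_sqrt hm.le]
    abel

/-- The swap homeomorphism. -/
noncomputable def sigH (hω : Osc ω) : Mfd ω ≃ₜ Mfd ω where
  toFun := sig ω (fun s => s ^ 2) ω
  invFun := sig ω Real.sqrt fun s => -ω (Real.sqrt s)
  left_inv z := sig_sig (good_sq hω).pos (fun s hs => Real.sqrt_sq hs.le)
    (fun s hs => by simp only [Real.sqrt_sq hs.le]) z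
  right_inv z := sig_sig (good_sqrt hω).pos (fun s hs => Real.sq_sqrt hs.le)
    (fun s _ => by simp only [neg_neg]) z
  continuous_toFun := continuous_sig hω (good_sq hω)
  continuous_invFun := continuous_sig hω (good_sqrt hω)

/-! ### Homogeneity -/

/-- Two points are equivalent if a homeomorphism maps one to the other. -/
def Eqv (ω : ℝ → G) (z w : Mfd ω) : Prop := ∃ h : Mfd ω ≃ₜ Mfd ω, h z = w

lemma Eqv.symm {z w : Mfd ω} (h : Eqv ω z w) : Eqv ω w z := by
  obtain ⟨e, rfl⟩ := h
  exact ⟨e.symm, e.symm_apply_apply z⟩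

lemma Eqv.trans {z w v : Mfd ω} (h : Eqv ω z w) (h' : Eqv ω w v) : Eqv ω z v := by
  obtain ⟨e, rfl⟩ := h
  obtain ⟨e', rfl⟩ := h'
  exact ⟨e.trans e', rfl⟩

lemma eqv_origin (hω : Osc ω) (n : ℕ) : ∀ z : Mfd ω, z.A.card = n → Eqv ω z (pe ω 0 0) := by
  classical
  induction n with
  | zero =>
    intro z hz
    rw [Finset.card_eq_zero] at hz
    refine ⟨(translH ω (-z.s)).trans (rotH ω (-z.g)), ?_⟩
    apply Mfd.ext'
    · exact add_neg_cancel z.s
    · change z.A.map _ = ∅
      rw [hz, Finset.map_empty]
    · exact add_neg_cancel z.g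
  | succ n ih =>
    intro z hz
    have hne : z.A.Nonempty := Finset.card_pos.1 (by omega)
    -- translate the top to `0`
    let m := mx z.A z.s
    have hmA : m ∈ z.A := by
      rcases mx_mem z.A z.s with h | h
      · obtain ⟨a, ha⟩ := hne
        have h1 := z.le a ha
        have h2 := le_mx' z.s ha
        rw [h] at h2
        change mx z.A z.s ∈ z.A
        rw [h, le_antisymm h1 h2]
        exact ha
      · exact h
    let z1 := transl ω (-m) z
    have hz1A : z1.A = z.A.map (addRightEmbedding (-m)) := rfl
    have h0 : (0 : ℝ) ∈ z1.A := by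
      rw [hz1A]
      exact Finset.mem_map.2 ⟨m, hmA, by simp⟩
    have hmx : mx z1.A z1.s ≤ 0 := by
      have := mx_map z.A z.s (-m)
      change mx (z.A.map (addRightEmbedding (-m))) (z.s + -m) ≤ 0
      rw [this]
      change mx z.A z.s + -mx z.A z.s ≤ 0
      linarith
    have hsig : sigH hω z1 = toggle ω z1 ((le_mx _ _).trans hmx) := sig_low z1 hmx
    have hcard : (sigH hω z1).A.card = n := by
      rw [hsig]
      change (symmDiff z1.A {0}).card = n
      have h3 : symmDiff z1.A {0} = z1.A.erase 0 := by
        ext b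
        simp only [Finset.mem_symmDiff, Finset.mem_singleton, Finset.mem_erase]
        constructor
        · rintro (h | ⟨rfl, h⟩)
          · exact ⟨h.2, h.1⟩
          · exact absurd h0 h
        · rintro ⟨h, h'⟩
          exact Or.inl ⟨h', h⟩
      rw [h3, Finset.card_erase_of_mem h0, hz1A, Finset.card_map, hz]
      rfl
    have h4 : Eqv ω z (sigH hω z1) := ⟨(translH ω (-m)).trans (sigH hω), rfl⟩
    exact h4.trans (ih _ hcard)

theorem homogeneous (hω : Osc ω) : IsHomogeneous (Mfd ω) := fun z w =>
  (eqv_origin hω _ z rfl).trans (eqv_origin hω _ w rfl).symm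

end Q178.HNH
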