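import Pool.Agent.Q178.HNH.Main

set_option autoImplicit false
set_option linter.unusedSectionVars false

/-!
The circle, the line and the torus.
-/

namespace Q178.HNH

open Set Filter Topology Real

/-- A one-parameter subgroup of the circle. -/
noncomputable def circ (p : ℝ) : ℝ →+ AddCircle p := QuotientAddGroup.mk' _

lemma continuous_circ (p : ℝ) : Continuous (circ p) := AddCircle.continuous_mk' p

lemma surjective_circ (p : ℝ) : Function.Surjective (circ p) := QuotientAddGroup.mk'_surjective _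

instance : Fact (0 < π) := ⟨Real.pi_pos⟩

/-- The complement of a point of the circle. -/
def V1 : Set (AddCircle π) := {((-(π / 2) : ℝ) : AddCircle π)}ᶜ

lemma isOpen_V1 : IsOpen V1 := isOpen_compl_singleton

lemma zero_mem_V1 : (0 : AddCircle π) ∈ V1 := by
  intro h
  have h1 : ((0 : ℝ) : AddCircle π) = ((-(π / 2) : ℝ) : AddCircle π) := by
    simpa using h
  rw [AddCircle.coe_eq_coe_iff_of_mem_Ico (a := -(π / 2)) (p := π)] at h1
  · have := Real.pi_pos
    linarith
  · have := Real.pi_pos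
    constructor <;> linarith
  · have := Real.pi_pos
    constructor <;> linarith

lemma nonempty_V1_homeomorph : Nonempty (V1 ≃ₜ ℝ) := by
  have e1 : Ioo (-(π / 2)) (-(π / 2) + π) ≃ₜ V1 :=
    (AddCircle.openPartialHomeomorphCoe π (-(π / 2))).toHomeomorphSourceTarget
  have e2 : Ioo (-(π / 2)) (π / 2) ≃ₜ ℝ := Real.tanOrderIso.toHomeomorph
  have h : Ioo (-(π / 2)) (-(π / 2) + π) = Ioo (-(π / 2)) (π / 2) := by
    congr 1
    ring
  exact ⟨e1.symm.trans ((Homeomorph.setCongr h).trans e2)⟩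

lemma nonempty_prod_two : Nonempty ((ℝ × ℝ) ≃ₜ EuclideanSpace ℝ (Fin 2)) := by
  obtain ⟨e⟩ := FiniteDimensional.nonempty_continuousLinearEquiv_of_finrank_eq (𝕜 := ℝ)
    (E := ℝ × ℝ) (F := EuclideanSpace ℝ (Fin 2)) (by simp)
  exact ⟨e.toHomeomorph⟩

lemma nonempty_prod_three : Nonempty ((ℝ × (ℝ × ℝ)) ≃ₜ EuclideanSpace ℝ (Fin 3)) := by
  obtain ⟨e⟩ := FiniteDimensional.nonempty_continuousLinearEquiv_of_finrank_eq (𝕜 := ℝ)
    (E := ℝ × (ℝ × ℝ)) (F := EuclideanSpace ℝ (Fin 3)) (by simp)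
  exact ⟨e.toHomeomorph⟩

/-- A homogeneous non-Hausdorff surface whose non-separated sets are circles. -/
theorem circle_case : ∃ (M : Type) (_ : TopologicalSpace M),
    IsHNH 2 M ∧ ∀ z : M, Nonempty (NH z ≃ₜ Circle) := by
  obtain ⟨e1⟩ := nonempty_V1_homeomorph
  obtain ⟨e2⟩ := nonempty_prod_two
  obtain ⟨M, hM, h1, h2⟩ := main (circ π) (continuous_circ π) (surjective_circ π).denseRange 2 V1
    isOpen_V1 zero_mem_V1 ⟨((Homeomorph.refl ℝ).prodCongr e1).trans e2⟩
  refine ⟨M, hM, h1, fun z => ?_⟩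
  obtain ⟨e⟩ := h2 z
  exact ⟨e.trans (AddCircle.homeomorphCircle Real.pi_ne_zero)⟩

/-- A homogeneous non-Hausdorff surface whose non-separated sets are lines. -/
theorem line_case : ∃ (M : Type) (_ : TopologicalSpace M),
    IsHNH 2 M ∧ ∀ z : M, Nonempty (NH z ≃ₜ ℝ) := by
  obtain ⟨e2⟩ := nonempty_prod_two
  obtain ⟨M, hM, h1, h2⟩ := main (AddMonoidHom.id ℝ) continuous_id
    Function.surjective_id.denseRange 2 (univ : Set ℝ) isOpen_univ (mem_univ _)
    ⟨((Homeomorph.refl ℝ).prodCongr (Homeomorph.Set.univ ℝ)).trans e2⟩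
  exact ⟨M, hM, h1, h2⟩

/-- The irrational line on the torus. -/
noncomputable def irr : ℝ →+ AddCircle π × AddCircle π :=
  (circ π).prod ((circ π).comp (AddMonoidHom.mulLeft (Real.sqrt 2)))

lemma continuous_irr : Continuous irr :=
  (continuous_circ π).prodMk ((continuous_circ π).comp (continuous_const.mul continuous_id))

lemma denseRange_irr : DenseRange irr := by
  rintro ⟨x, y⟩
  rw [mem_closure_iff_nhds]
  intro W hW
  rw [nhds_prod_eq] at hW
  obtain ⟨W1, hW1, W2, hW2, hW12⟩ := Filter.mem_prod_iff.1 hW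
  obtain ⟨t, rfl⟩ := surjective_circ π x
  have h1 : DenseRange (fun n : ℤ => n • ((Real.sqrt 2 * π : ℝ) : AddCircle π)) := by
    rw [AddCircle.denseRange_zsmul_coe_iff, mul_div_assoc, div_self Real.pi_ne_zero, mul_one]
    exact irrational_sqrt_two
  have hW2' : (fun z => (circ π (Real.sqrt 2 * t) : AddCircle π) + z) ⁻¹' W2 ∈
      𝓝 (y - circ π (Real.sqrt 2 * t)) := by
    have hc : Continuous fun z : AddCircle π => (circ π (Real.sqrt 2 * t) : AddCircle π) + z := by
      fun_prop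
    apply hc.continuousAt
    simp only [add_sub_cancel]
    exact hW2
  obtain ⟨_, hz1, ⟨n, rfl⟩⟩ := mem_closure_iff_nhds.1 (h1 (y - circ π (Real.sqrt 2 * t))) _ hW2'
  refine ⟨irr (t + n * π), hW12 ⟨?_, ?_⟩, ⟨_, rfl⟩⟩
  · have h2 : (irr (t + n * π)).1 = circ π t := by
      change ((t + n * π : ℝ) : AddCircle π) = (t : AddCircle π)
      rw [← zsmul_eq_mul, AddCircle.coe_add, AddCircle.coe_zsmul, AddCircle.coe_period]
      simp
    rw [h2]
    exact mem_of_mem_nhds hW1
  · have h2 : (irr (t + n * π)).2 =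
        circ π (Real.sqrt 2 * t) + n • ((Real.sqrt 2 * π : ℝ) : AddCircle π) := by
      change ((Real.sqrt 2 * (t + n * π) : ℝ) : AddCircle π) = _
      have h3 : Real.sqrt 2 * (t + n * π) = Real.sqrt 2 * t + n • (Real.sqrt 2 * π) := by
        rw [zsmul_eq_mul]
        ring
      rw [h3, AddCircle.coe_add, AddCircle.coe_zsmul]
      rfl
    rw [h2]
    exact hz1

/-- A homogeneous non-Hausdorff three-manifold whose non-separated sets are tori. -/
theorem torus_case : ∃ (M : Type) (_ : TopologicalSpace M),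
    IsHNH 3 M ∧ ∀ z : M, Nonempty (NH z ≃ₜ Circle × Circle) := by
  obtain ⟨e1⟩ := nonempty_V1_homeomorph
  obtain ⟨e2⟩ := nonempty_prod_three
  obtain ⟨M, hM, h1, h2⟩ := main irr continuous_irr denseRange_irr 3 (V1 ×ˢ V1)
    (isOpen_V1.prod isOpen_V1) ⟨zero_mem_V1, zero_mem_V1⟩
    ⟨((Homeomorph.refl ℝ).prodCongr ((Homeomorph.Set.prod V1 V1).trans
      (e1.prodCongr e1))).trans e2⟩
  refine ⟨M, hM, h1, fun z => ?_⟩
  obtain ⟨e⟩ := h2 z
  have e3 := AddCircle.homeomorphCircle Real.pi_ne_zero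
  exact ⟨e.trans (e3.prodCongr e3)⟩

end Q178.HNH
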