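import Pool.Agent.Q178.HNH.Homog

set_option autoImplicit false
set_option linter.unusedSectionVars false

/-!
The non-separated sets.
-/

universe u

namespace Q178.HNH

open Set Filter Topology

variable {G : Type u} [AddCommGroup G] [TopologicalSpace G] [IsTopologicalAddGroup G]
  {ω : ℝ → G}

/-! ### Connectedness -/

lemma pe_mem_range_chart (B : Finset ℝ) {s : ℝ} (h : ∀ b ∈ B, b < s) (g : G) :
    pe ω s g ∈ range (chart ω B) := by
  refine ⟨(s, g + ∑ b ∈ B, ω (s - b)), ?_⟩
  rw [chart_pe h]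
  simp

theorem connected [PreconnectedSpace G] : ConnectedSpace (Mfd ω) := by
  classical
  have h1 : ∀ B, IsPreconnected (range (chart ω B)) := fun B =>
    isPreconnected_range (continuous_chart ω B)
  have : PreconnectedSpace (Mfd ω) := by
    constructor
    apply isPreconnected_of_forall (pe ω 0 0)
    intro z _
    refine ⟨range (chart ω z.A) ∪ range (chart ω ∅), subset_univ _, Or.inr ?_, Or.inl ?_, ?_⟩
    · exact pe_mem_range_chart ∅ (by simp) 0
    · refine ⟨(z.s, z.g + ∑ b ∈ z.A, ω (z.s - b)), ?_⟩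
      apply Mfd.ext'
      · rfl
      · exact Finset.filter_true_of_mem z.le
      · exact add_sub_cancel_right _ _
    · obtain ⟨s, hs⟩ : ∃ s : ℝ, ∀ b ∈ z.A, b < s := by
        refine ⟨mx z.A z.s + 1, fun b hb => ?_⟩
        linarith [le_mx' z.s hb]
      exact (h1 _).union (pe ω s 0) (pe_mem_range_chart _ hs 0)
        (pe_mem_range_chart ∅ (by simp) 0) (h1 _)
  exact { toPreconnectedSpace := this, toNonempty := ⟨pe ω 0 0⟩ }

/-! ### The local structure -/

theorem euclidean (hω : Osc ω) {n : ℕ} (V : Set G) (hV : IsOpen V) (h0 : (0 : G) ∈ V)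
    (e : (ℝ × V) ≃ₜ EuclideanSpace ℝ (Fin n)) (z : Mfd ω) :
    ∃ U : Set (Mfd ω), IsOpen U ∧ z ∈ U ∧ Nonempty (U ≃ₜ EuclideanSpace ℝ (Fin n)) := by
  have h1 : IsOpenEmbedding (fun v : V => (v : G) + z.g) :=
    (Homeomorph.addRight z.g).isOpenEmbedding.comp hV.isOpenEmbedding_subtypeVal
  have h2 : IsOpenEmbedding (fun p : ℝ × V => chart ω z.A (p.1, (p.2 : G) + z.g)) :=
    (isOpenEmbedding_chart hω z.A).comp (IsOpenEmbedding.id.prodMap h1)
  refine ⟨_, h2.isOpen_range, ⟨(z.s, ⟨0, h0⟩), ?_⟩, ⟨h2.toIsEmbedding.toHomeomorph.symm.trans e⟩⟩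
  simp only [zero_add]
  exact chart_self hω z

/-! ### The non-separated points -/

/-- The points opposite to a point. -/
noncomputable def opp (z : Mfd ω) (g : G) : Mfd ω where
  s := z.s
  A := symmDiff z.A {z.s}
  g := g
  le := by
    intro a ha
    rcases Finset.mem_symmDiff.1 ha with h1 | h1
    · exact z.le a h1.1
    · exact (Finset.mem_singleton.1 h1.1).ge

lemma insep (hω : Osc ω) {z y : Mfd ω} (hs : y.s = z.s) (hz : z.s ∉ z.A)
    (hA : y.A = insert z.s z.A) {U V : Set (Mfd ω)} (hU : IsOpen U) (hV : IsOpen V)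
    (hyU : y ∈ U) (hzV : z ∈ V) : (U ∩ V).Nonempty := by
  classical
  have hU' : chart ω y.A ⁻¹' U ∈ 𝓝 (y.s, y.g) := by
    apply (hU.preimage (continuous_chart ω _)).mem_nhds
    change chart ω y.A (y.s, y.g) ∈ U
    rwa [chart_self hω]
  have hV' : chart ω z.A ⁻¹' V ∈ 𝓝 (z.s, z.g) := by
    apply (hV.preimage (continuous_chart ω _)).mem_nhds
    change chart ω z.A (z.s, z.g) ∈ V
    rwa [chart_self hω]
  rw [hs] at hU'
  -- points in the two charts
  have hφ : Continuous fun u : ℝ => (z.s + u, y.g) := by fun_prop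
  have h1 : ∀ᶠ q : ℝ × G in 𝓝 (0 : ℝ) ×ˢ 𝓝 y.g, chart ω y.A (z.s + q.1, q.2) ∈ U := by
    have hc : Tendsto (fun q : ℝ × G => (z.s + q.1, q.2)) (𝓝 (0 : ℝ) ×ˢ 𝓝 y.g)
        (𝓝 (z.s, y.g)) := by
      rw [← nhds_prod_eq]
      have : Continuous (fun q : ℝ × G => (z.s + q.1, q.2)) := by fun_prop
      have h := this.tendsto (0, y.g)
      simpa using h
    exact hc.eventually hU'
  have h2 : ∀ᶠ u : ℝ in 𝓝 0, chart ω z.A (z.s + u, z.g) ∈ V := by
    have hc : Tendsto (fun u : ℝ => (z.s + u, z.g)) (𝓝 (0 : ℝ)) (𝓝 (z.s, z.g)) := by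
      have : Continuous (fun u : ℝ => (z.s + u, z.g)) := by fun_prop
      have h := this.tendsto 0
      simpa using h
    exact hc.eventually hV'
  obtain ⟨pa, hpa, pb, hpb, h12⟩ := eventually_prod_iff.1 h1
  obtain ⟨N, hN, hNo, hyN⟩ := mem_nhds_iff.1 hpb
  -- an open set of values of `ω`
  have hNo' : IsOpen ((fun x => z.g + x) ⁻¹' N) := hNo.preimage (by fun_prop)
  have hne : ((fun x => z.g + x) ⁻¹' N).Nonempty := ⟨y.g - z.g, by simpa using hyN⟩
  have h3 := hω.cluster _ hNo' hne
  have h4 : ∀ᶠ u : ℝ in 𝓝[>] 0, pa u ∧ chart ω z.A (z.s + u, z.g) ∈ V ∧ 0 < u := by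
    filter_upwards [nhdsWithin_le_nhds hpa, nhdsWithin_le_nhds h2, self_mem_nhdsWithin] with
      u h5 h6 h7
    exact ⟨h5, h6, h7⟩
  obtain ⟨u, hu1, hu2, hu3, hu4⟩ := (h3.and_eventually h4).exists
  refine ⟨chart ω z.A (z.s + u, z.g), ?_, hu3⟩
  have h5 := h12 hu2 (hN hu1)
  have h6 : chart ω y.A (z.s + u, z.g + ω u) = chart ω z.A (z.s + u, z.g) := by
    apply Mfd.ext'
    · rfl
    · change (y.A.filter fun b => z.s + u ≤ b) = z.A.filter fun b => z.s + u ≤ b
      rw [hA, Finset.filter_insert, if_neg (by linarith)]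
    · change z.g + ω u - ∑ b ∈ y.A, ω (z.s + u - b) = z.g - ∑ b ∈ z.A, ω (z.s + u - b)
      rw [hA, Finset.sum_insert hz]
      have : z.s + u - z.s = u := by ring
      rw [this]
      abel
  simp only at h5
  rwa [h6] at h5

lemma opp_mem_NH (hω : Osc ω) (z : Mfd ω) (g : G) : opp z g ∈ NH z := by
  classical
  refine ⟨fun h => ?_, fun U V hU hV hy hz => ?_⟩
  · have h1 : symmDiff z.A {z.s} = z.A := congrArg Mfd.A h
    have h2 := congrArg (fun B => symmDiff z.A B) h1
    simp only [symmDiff_symmDiff_cancel_left, symmDiff_self] at h2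
    exact Finset.singleton_ne_empty z.s h2
  · by_cases hs : z.s ∈ z.A
    · have h1 : (opp z g).A = z.A.erase z.s := by
        change symmDiff z.A {z.s} = _
        ext b
        simp only [Finset.mem_symmDiff, Finset.mem_singleton, Finset.mem_erase]
        constructor
        · rintro (h | ⟨rfl, h⟩)
          · exact ⟨h.2, h.1⟩
          · exact absurd hs h
        · rintro ⟨h, h'⟩
          exact Or.inl ⟨h', h⟩
      rw [inter_comm]
      apply insep hω (z := opp z g) (y := z) rfl ?_ ?_ hV hU hz hy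
      · rw [h1]
        exact Finset.notMem_erase _ _
      · rw [h1]
        exact (Finset.insert_erase hs).symm
    · apply insep hω (z := z) (y := opp z g) rfl hs ?_ hU hV hy hz
      change symmDiff z.A {z.s} = _
      ext b
      simp only [Finset.mem_symmDiff, Finset.mem_singleton, Finset.mem_insert]
      constructor
      · rintro (h | ⟨rfl, h⟩)
        · exact Or.inr h.1
        · exact Or.inl rfl
      · rintro (rfl | h)
        · exact Or.inr ⟨rfl, hs⟩
        · refine Or.inl ⟨h, ?_⟩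
          rintro rfl
          exact hs h

lemma NH_eq (hω : Osc ω) [T2Space G] (z : Mfd ω) : NH z = range (opp z) := by
  classical
  apply Subset.antisymm
  · rintro y ⟨hyz, hy⟩
    -- equal heights
    have hs : y.s = z.s := by
      by_contra hne
      obtain ⟨U, V, hU, hV, hyU, hzV, hd⟩ := t2_separation hne
      obtain ⟨w, hw1, hw2⟩ := hy _ _ (hU.preimage (continuous_s ω)) (hV.preimage (continuous_s ω))
        hyU hzV
      exact hd.ne_of_mem hw1 hw2 rfl
    -- different addresses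
    have hA : y.A ≠ z.A := by
      intro hA
      have hg : (y.s, y.g) ≠ (z.s, z.g) := by
        intro h
        apply hyz
        exact Mfd.ext' hs hA (congrArg Prod.snd h)
      obtain ⟨U, V, hU, hV, hyU, hzV, hd⟩ := t2_separation hg
      have hyU' : y ∈ chart ω z.A '' U := ⟨_, hyU, by rw [← hA]; exact chart_self hω y⟩
      have hzV' : z ∈ chart ω z.A '' V := ⟨_, hzV, chart_self hω z⟩
      obtain ⟨w, ⟨p, hp, rfl⟩, ⟨q, hq, hpq⟩⟩ := hy _ _ (isOpenMap_chart hω z.A U hU)
        (isOpenMap_chart hω z.A V hV) hyU' hzV'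
      have := chart_injective ω z.A hpq
      exact hd.ne_of_mem hp hq this.symm
    -- the addresses agree above the height
    have hA' : ∀ e, z.s < e → (e ∈ y.A ↔ e ∈ z.A) := by
      intro e he
      have hO : IsOpen {p : ℝ × G | p.1 < e} := isOpen_lt continuous_fst continuous_const
      obtain ⟨w, ⟨p, hp, rfl⟩, ⟨q, hq, hpq⟩⟩ := hy _ _ (isOpenMap_chart hω y.A _ hO)
        (isOpenMap_chart hω z.A _ hO) ⟨(y.s, y.g), by simpa [hs] using he, chart_self hω y⟩
        ⟨(z.s, z.g), he, chart_self hω z⟩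
      have h1 : (z.A.filter fun b => q.1 ≤ b) = y.A.filter fun b => p.1 ≤ b :=
        congrArg Mfd.A hpq
      have hp' : p.1 ≤ e := le_of_lt hp
      have hq' : q.1 ≤ e := le_of_lt hq
      constructor
      · intro h
        have h2 : e ∈ y.A.filter fun b => p.1 ≤ b := Finset.mem_filter.2 ⟨h, hp'⟩
        rw [← h1] at h2
        exact (Finset.mem_filter.1 h2).1
      · intro h
        have h2 : e ∈ z.A.filter fun b => q.1 ≤ b := Finset.mem_filter.2 ⟨h, hq'⟩
        rw [h1] at h2
        exact (Finset.mem_filter.1 h2).1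
    have hlt : ∀ e, e < z.s → (e ∉ y.A ∧ e ∉ z.A) := by
      intro e he
      refine ⟨fun h => ?_, fun h => ?_⟩
      · have := y.le e h
        linarith
      · have := z.le e h
        linarith
    have hzs : ¬ (z.s ∈ y.A ↔ z.s ∈ z.A) := by
      intro h
      apply hA
      ext e
      rcases lt_trichotomy e z.s with h1 | h1 | h1
      · exact iff_of_false (hlt e h1).1 (hlt e h1).2
      · rw [h1]
        exact h
      · exact hA' e h1
    refine ⟨y.g, Mfd.ext' hs.symm ?_ rfl⟩
    change symmDiff z.A {z.s} = y.A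
    ext e
    simp only [Finset.mem_symmDiff, Finset.mem_singleton]
    rcases lt_trichotomy e z.s with h1 | h1 | h1
    · have := hlt e h1
      have h2 := h1.ne
      tauto
    · subst h1
      tauto
    · have := hA' e h1
      have h2 := h1.ne'
      tauto
  · rintro _ ⟨g, rfl⟩
    exact opp_mem_NH hω z g

lemma isEmbedding_opp (hω : Osc ω) (z : Mfd ω) : IsEmbedding (opp z) := by
  have h1 : opp z = chart ω (symmDiff z.A {z.s}) ∘ fun g : G => (z.s, g) := by
    funext g
    exact (chart_self hω (opp z g)).symm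
  rw [h1]
  exact (isOpenEmbedding_chart hω _).toIsEmbedding.comp (isEmbedding_prodMkRight z.s)

/-- The non-separated set of every point is homeomorphic to the group. -/
theorem nonempty_NH_homeomorph (hω : Osc ω) [T2Space G] (z : Mfd ω) : Nonempty (NH z ≃ₜ G) :=
  ⟨(Homeomorph.setCongr (NH_eq hω z)).trans (isEmbedding_opp hω z).toHomeomorph.symm⟩

/-- The main construction. -/
theorem main [T2Space G] (j : ℝ →+ G) (hj : Continuous j) (hd : DenseRange j) (n : ℕ)
    (V : Set G) (hV : IsOpen V) (h0 : (0 : G) ∈ V)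
    (e : Nonempty ((ℝ × V) ≃ₜ EuclideanSpace ℝ (Fin n))) :
    ∃ (M : Type u) (_ : TopologicalSpace M), IsHNH n M ∧ ∀ z : M, Nonempty (NH z ≃ₜ G) := by
  obtain ⟨ω, hω⟩ := exists_osc j hj hd
  obtain ⟨e⟩ := e
  have : PreconnectedSpace G := hd.preconnectedSpace hj
  refine ⟨Mfd ω, inferInstance, ⟨⟨connected, euclidean hω V hV h0 e⟩, homogeneous hω, ?_⟩,
    nonempty_NH_homeomorph hω⟩
  intro h
  have h1 := opp_mem_NH hω (pe ω 0 0) 0
  obtain ⟨U, W, hU, hW, h2, h3, h4⟩ := t2_separation h1.1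
  obtain ⟨w, hw1, hw2⟩ := h1.2 U W hU hW h2 h3
  exact h4.ne_of_mem hw1 hw2 rfl

end Q178.HNH
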