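import Mathlib

set_option autoImplicit false

/-!
A slowly oscillating function on the positive reals.
-/

universe u

namespace Q178.HNH

open Set Filter Topology Real

/-- The amplitude-modulated sine. -/
noncomputable def F (y : ℝ) : ℝ := log (1 + y) * sin (π * y)

/-- A truncated logarithm in base two. -/
noncomputable def T (a : ℝ) : ℝ := log (max 1 a) / log 2

/-- The oscillating function. -/
noncomputable def osc (u : ℝ) : ℝ := F (T (-log u))

lemma log_two_pos : 0 < log 2 := log_pos one_lt_two

lemma T_nonneg (a : ℝ) : 0 ≤ T a := div_nonneg (log_nonneg (le_max_left _ _)) log_two_pos.le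

lemma continuous_T : Continuous T := by
  unfold T
  apply Continuous.div_const
  apply Continuous.log (by fun_prop)
  intro x
  have := le_max_left (1 : ℝ) x
  positivity

lemma continuousOn_F : ContinuousOn F (Ici 0) := by
  unfold F
  apply ContinuousOn.mul
  · apply ContinuousOn.log (by fun_prop)
    intro x hx
    have : (0 : ℝ) ≤ x := hx
    positivity
  · fun_prop

lemma continuousOn_osc : ContinuousOn osc (Ioi 0) := by
  unfold osc
  apply continuousOn_F.comp
  · apply continuous_T.comp_continuousOn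
    apply ContinuousOn.neg
    exact continuousOn_log.mono fun x hx => ne_of_gt hx
  · intro x _
    exact T_nonneg _

lemma abs_F_sub_le {y y' : ℝ} (hy : 0 ≤ y) (hy' : 0 ≤ y') :
    |F y' - F y| ≤ (π * y + 1) * |y' - y| := by
  have h1 : F y' - F y = log (1 + y) * (sin (π * y') - sin (π * y)) +
      (log (1 + y') - log (1 + y)) * sin (π * y') := by
    unfold F
    ring
  have hlog : |log (1 + y)| ≤ y := by
    rw [abs_of_nonneg (log_nonneg (by linarith))]
    have := log_le_sub_one_of_pos (show 0 < 1 + y by linarith)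
    linarith
  have hsin : |sin (π * y') - sin (π * y)| ≤ π * |y' - y| := by
    have h2 : |sin (π * y') - sin (π * y)| ≤ |π * y' - π * y| := by
      have h3 := Real.sin_sub_sin (π * y') (π * y)
      rw [h3, abs_mul, abs_mul, abs_two]
      have h4 : |sin ((π * y' - π * y) / 2)| ≤ |(π * y' - π * y) / 2| := abs_sin_le_abs
      have h5 : |cos ((π * y' + π * y) / 2)| ≤ 1 := abs_cos_le_one _
      have h6 : |(π * y' - π * y) / 2| = |π * y' - π * y| / 2 := by
        rw [abs_div, abs_two]
      rw [h6] at h4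
      have h7 : 0 ≤ |sin ((π * y' - π * y) / 2)| := abs_nonneg _
      nlinarith [abs_nonneg (cos ((π * y' + π * y) / 2))]
    rw [← mul_sub, abs_mul, abs_of_pos pi_pos] at h2
    exact h2
  have hlog' : |log (1 + y') - log (1 + y)| ≤ |y' - y| := by
    have key : ∀ p q : ℝ, 0 ≤ p → p ≤ q → log (1 + q) - log (1 + p) ≤ q - p := by
      intro p q hp hpq
      rw [← log_div (by linarith) (by linarith)]
      have h2 := log_le_sub_one_of_pos (show 0 < (1 + q) / (1 + p) by
        apply div_pos <;> linarith)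
      refine h2.trans ?_
      rw [div_sub_one (by linarith), div_le_iff₀ (by linarith)]
      nlinarith
    rcases le_total y y' with h | h
    · rw [abs_of_nonneg, abs_of_nonneg (by linarith)]
      · exact key y y' hy h
      · have := log_le_log (show 0 < 1 + y by linarith) (show 1 + y ≤ 1 + y' by linarith)
        linarith
    · rw [abs_sub_comm, abs_sub_comm y', abs_of_nonneg, abs_of_nonneg (by linarith)]
      · exact key y' y hy' h
      · have := log_le_log (show 0 < 1 + y' by linarith) (show 1 + y' ≤ 1 + y by linarith)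
        linarith
  rw [h1]
  refine (abs_add_le _ _).trans ?_
  rw [abs_mul, abs_mul]
  have h8 : |sin (π * y')| ≤ 1 := abs_sin_le_one _
  have h9 : |log (1 + y)| * |sin (π * y') - sin (π * y)| ≤ y * (π * |y' - y|) :=
    mul_le_mul hlog hsin (abs_nonneg _) hy
  have h10 : |log (1 + y') - log (1 + y)| * |sin (π * y')| ≤ |y' - y| * 1 :=
    mul_le_mul hlog' h8 (abs_nonneg _) (abs_nonneg _)
  linarith

lemma abs_T_sub_le {a b B : ℝ} (hb : |b| ≤ B) (ha : 2 * B + 2 ≤ a) :
    |T (a - b) - T a| ≤ (2 * B / log 2) / a := by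
  have hB : 0 ≤ B := (abs_nonneg b).trans hb
  have hb1 := (abs_le.1 hb).1
  have hb2 := (abs_le.1 hb).2
  have h1 : 1 ≤ a - b := by linarith
  have h2 : 1 ≤ a := by linarith
  have ha0 : 0 < a := by linarith
  unfold T
  rw [max_eq_right h1, max_eq_right h2, ← sub_div, abs_div, abs_of_pos log_two_pos]
  have key : |log (a - b) - log a| ≤ 2 * B / a := by
    have h3 : a / 2 ≤ a - b := by linarith
    have hup : log (a - b) - log a ≤ 2 * B / a := by
      rw [← log_div (by linarith) (by linarith)]
      refine (log_le_sub_one_of_pos (by apply div_pos <;> linarith)).trans ?_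
      rw [div_sub_one ha0.ne', div_le_div_iff_of_pos_right ha0]
      linarith
    have hlow : log a - log (a - b) ≤ 2 * B / a := by
      rw [← log_div (by linarith) (by linarith)]
      refine (log_le_sub_one_of_pos (by apply div_pos <;> linarith)).trans ?_
      rw [div_sub_one (by linarith : a - b ≠ 0), div_le_div_iff₀ (by linarith) ha0]
      nlinarith
    rw [abs_le]
    constructor <;> linarith
  rw [div_le_iff₀ log_two_pos]
  have h4 : 2 * B / log 2 / a * log 2 = 2 * B / a := by
    field_simp
  rw [h4]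
  exact key

/-- The oscillating function hardly changes if its argument is multiplied by a bounded
factor. -/
lemma tendsto_F_T {ι : Type u} {l : Filter ι} {a b : ι → ℝ} (ha : Tendsto a l atTop) {b0 : ℝ}
    (hb : Tendsto b l (𝓝 b0)) : Tendsto (fun i => F (T (a i - b i)) - F (T (a i))) l (𝓝 0) := by
  set B : ℝ := |b0| + 1 with hB
  have hbB : ∀ᶠ i in l, |b i| ≤ B := by
    have h1 : Tendsto (fun i => |b i|) l (𝓝 |b0|) := hb.abs
    filter_upwards [h1.eventually (gt_mem_nhds (show |b0| < B by linarith))] with i hi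
    exact hi.le
  let g : ℝ → ℝ := fun a => (π * (log a / log 2) + 1) * ((2 * B / log 2) / a)
  have hg : Tendsto g atTop (𝓝 0) := by
    have h1 : Tendsto (fun x : ℝ => log x / x) atTop (𝓝 0) := by
      have := Real.tendsto_pow_log_div_mul_add_atTop 1 0 1 one_ne_zero
      simpa using this
    have h2 : Tendsto (fun x : ℝ => 1 / x) atTop (𝓝 0) := by
      simpa using tendsto_inv_atTop_zero (𝕜 := ℝ)
    have h3 : g = fun a => (π / log 2 * (2 * B / log 2)) * (log a / a) +
        (2 * B / log 2) * (1 / a) := by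
      funext a
      simp only [g]
      ring
    rw [h3]
    simpa using (h1.const_mul (π / log 2 * (2 * B / log 2))).add
      (h2.const_mul (2 * B / log 2))
  apply squeeze_zero_norm' _ (hg.comp ha)
  filter_upwards [hbB, ha.eventually_ge_atTop (2 * B + 2)] with i hi1 hi2
  rw [Real.norm_eq_abs]
  have hB0 : 0 ≤ B := (abs_nonneg _).trans hi1
  refine (abs_F_sub_le (T_nonneg _) (T_nonneg _)).trans ?_
  have h1 : T (a i) = log (a i) / log 2 := by
    unfold T
    rw [max_eq_right (by linarith)]
  have h2 := abs_T_sub_le hi1 hi2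
  simp only [Function.comp_apply, g]
  rw [← h1]
  have h3 : 0 ≤ T (a i) := T_nonneg _
  exact mul_le_mul_of_nonneg_left h2 (by positivity)

lemma tendsto_neg_log : Tendsto (fun u : ℝ => -log u) (𝓝[>] 0) atTop :=
  tendsto_neg_atBot_atTop.comp tendsto_log_nhdsGT_zero

lemma osc_scale {ι : Type u} {l : Filter ι} {u k : ι → ℝ} (hu : Tendsto u l (𝓝[>] 0)) {k0 : ℝ}
    (hk0 : 0 < k0) (hk : Tendsto k l (𝓝 k0)) :
    Tendsto (fun i => osc (k i * u i) - osc (u i)) l (𝓝 0) := by
  have h1 : Tendsto (fun i => -log (u i)) l atTop := tendsto_neg_log.comp hu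
  have h2 : Tendsto (fun i => log (k i)) l (𝓝 (log k0)) := hk.log hk0.ne'
  refine (tendsto_F_T h1 h2).congr' ?_
  have h3 : ∀ᶠ i in l, 0 < u i := by
    have := hu.eventually (self_mem_nhdsWithin)
    exact this
  have h4 : ∀ᶠ i in l, 0 < k i := hk.eventually (lt_mem_nhds hk0)
  filter_upwards [h3, h4] with i hi1 hi2
  unfold osc
  rw [log_mul hi2.ne' hi1.ne']
  congr 3
  ring

lemma T_two_mul {a : ℝ} (ha : 1 ≤ a) : T (2 * a) = T a + 1 := by
  unfold T
  rw [max_eq_right ha, max_eq_right (by linarith), log_mul (by norm_num) (by linarith),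
    add_div, div_self log_two_pos.ne', add_comm]

lemma tendsto_T : Tendsto T atTop atTop := by
  unfold T
  apply Tendsto.atTop_div_const log_two_pos
  apply tendsto_log_atTop.comp
  exact tendsto_atTop_mono (fun x => le_max_right 1 x) tendsto_id

lemma osc_sq : Tendsto (fun s : ℝ => osc s + osc (s ^ 2)) (𝓝[>] 0) (𝓝 0) := by
  have h1 : Tendsto (fun s : ℝ => 1 / (1 + T (-log s))) (𝓝[>] 0) (𝓝 0) := by
    have h2 : Tendsto (fun s : ℝ => 1 + T (-log s)) (𝓝[>] 0) atTop :=
      tendsto_atTop_add_const_left _ _ (tendsto_T.comp tendsto_neg_log)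
    exact h2.inv_tendsto_atTop.congr fun s => (one_div _).symm
  apply squeeze_zero_norm' _ h1
  have h2 : ∀ᶠ s : ℝ in 𝓝[>] 0, 1 ≤ -log s := tendsto_neg_log.eventually_ge_atTop 1
  filter_upwards [h2, self_mem_nhdsWithin] with s hs1 hs2
  have hs0 : (0 : ℝ) < s := hs2
  have hlog : -log (s ^ 2) = 2 * (-log s) := by
    rw [log_pow]
    push_cast
    ring
  unfold osc
  rw [hlog, T_two_mul hs1]
  set y := T (-log s) with hy
  have hy0 : 0 ≤ y := T_nonneg _
  have hF : F y + F (y + 1) = (log (1 + y) - log (2 + y)) * sin (π * y) := by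
    unfold F
    have h3 : sin (π * (y + 1)) = -sin (π * y) := by
      rw [mul_add, mul_one, sin_add_pi]
    rw [h3]
    have h4 : (1 : ℝ) + (y + 1) = 2 + y := by ring
    rw [h4]
    ring
  rw [hF, Real.norm_eq_abs, abs_mul]
  have h5 : |sin (π * y)| ≤ 1 := abs_sin_le_one _
  have h6 : |log (1 + y) - log (2 + y)| ≤ 1 / (1 + y) := by
    rw [abs_sub_comm, abs_of_nonneg]
    · rw [← log_div (by linarith) (by linarith)]
      refine (log_le_sub_one_of_pos (by apply div_pos <;> linarith)).trans ?_
      rw [div_sub_one (by linarith), div_le_div_iff_of_pos_right (by linarith)]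
      linarith
    · have := log_le_log (show 0 < 1 + y by linarith) (show 1 + y ≤ 2 + y by linarith)
      linarith
  calc |log (1 + y) - log (2 + y)| * |sin (π * y)| ≤ 1 / (1 + y) * 1 :=
        mul_le_mul h6 h5 (abs_nonneg _) (by positivity)
    _ = 1 / (1 + y) := mul_one _

lemma exists_osc_eq (x δ : ℝ) (hδ : 0 < δ) : ∃ u, 0 < u ∧ u < δ ∧ osc u = x := by
  -- a large even integer
  obtain ⟨n, hn1, hn2, hn3⟩ : ∃ n : ℕ, |x| ≤ log (2 * n + 3 / 2) ∧ 1 ≤ n ∧
      -log δ < exp (n * log 2) := by
    have h1 : Tendsto (fun n : ℕ => log (2 * (n : ℝ) + 3 / 2)) atTop atTop := by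
      apply tendsto_log_atTop.comp
      apply tendsto_atTop_add_const_right
      exact (tendsto_natCast_atTop_atTop).const_mul_atTop two_pos
    have h2 : Tendsto (fun n : ℕ => exp ((n : ℝ) * log 2)) atTop atTop := by
      apply tendsto_exp_atTop.comp
      exact (tendsto_natCast_atTop_atTop).atTop_mul_const log_two_pos
    obtain ⟨n, h3, h4, h5⟩ := ((h1.eventually_ge_atTop |x|).and ((eventually_ge_atTop 1).and
      (h2.eventually_gt_atTop (-log δ)))).exists
    exact ⟨n, h3, h4, h5⟩
  have hn0 : (0 : ℝ) ≤ n := Nat.cast_nonneg n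
  have hpi0 : F (2 * n + 1 / 2) = log (2 * n + 3 / 2) := by
    unfold F
    have h1 : sin (π * (2 * n + 1 / 2)) = 1 := by
      have : π * (2 * n + 1 / 2) = π / 2 + n * (2 * π) := by ring
      rw [this, sin_add_nat_mul_two_pi, sin_pi_div_two]
    rw [h1, mul_one]
    congr 1
    ring
  have hpi1 : F (2 * n + 3 / 2) = -log (2 * n + 5 / 2) := by
    unfold F
    have h1 : sin (π * (2 * n + 3 / 2)) = -1 := by
      have : π * (2 * n + 3 / 2) = (π / 2 + π) + n * (2 * π) := by ring
      rw [this, sin_add_nat_mul_two_pi, sin_add_pi, sin_pi_div_two]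
    rw [h1]
    have h2 : (1 : ℝ) + (2 * n + 3 / 2) = 2 * n + 5 / 2 := by ring
    rw [h2]
    ring
  have hx := abs_le.1 hn1
  have hle : log (2 * (n : ℝ) + 3 / 2) ≤ log (2 * n + 5 / 2) :=
    log_le_log (by positivity) (by linarith)
  have hcont : ContinuousOn F (Icc (2 * n + 1 / 2) (2 * n + 3 / 2)) :=
    continuousOn_F.mono fun y hy => le_trans (by positivity) hy.1
  obtain ⟨y, hy, hFy⟩ := intermediate_value_Icc' (by linarith) hcont
    (show x ∈ Icc (F (2 * n + 3 / 2)) (F (2 * n + 1 / 2)) by
      rw [hpi0, hpi1]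
      constructor
      · linarith [hx.1]
      · exact hx.2)
  have hyn : (n : ℝ) ≤ y := by linarith [hy.1]
  have hy0 : 0 ≤ y := hn0.trans hyn
  refine ⟨exp (-exp (y * log 2)), exp_pos _, ?_, ?_⟩
  · rw [← log_lt_log_iff (exp_pos _) hδ, log_exp]
    have h1 : exp (n * log 2) ≤ exp (y * log 2) :=
      exp_le_exp.2 (mul_le_mul_of_nonneg_right hyn log_two_pos.le)
    linarith
  · unfold osc
    rw [log_exp, neg_neg]
    have h1 : T (exp (y * log 2)) = y := by
      unfold T
      rw [max_eq_right (one_le_exp (by positivity)), log_exp, mul_div_assoc,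
        div_self log_two_pos.ne', mul_one]
    rw [h1, hFy]

lemma frequently_osc (x : ℝ) : ∃ᶠ u in 𝓝[>] 0, osc u = x := by
  rw [frequently_nhdsWithin_iff, Metric.nhds_basis_ball.frequently_iff]
  intro δ hδ
  obtain ⟨u, hu0, huδ, hu⟩ := exists_osc_eq x δ hδ
  refine ⟨u, ?_, hu, hu0⟩
  rw [Metric.mem_ball, dist_zero_right, Real.norm_eq_abs, abs_of_pos hu0]
  exact huδ

/-! ### Group-valued oscillating functions -/

/-- The properties of the oscillating function used in the construction of the manifolds. -/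
structure Osc {G : Type u} [AddCommGroup G] [TopologicalSpace G] (ω : ℝ → G) : Prop where
  neg : ∀ u ≤ 0, ω u = 0
  cont : ContinuousOn ω (Ioi 0)
  sq : Tendsto (fun s => ω s + ω (s ^ 2)) (𝓝[>] 0) (𝓝 0)
  scale : ∀ m, 0 < m → Tendsto (fun s => ω (s ^ 2 - m ^ 2) - ω (s - m)) (𝓝[>] m) (𝓝 0)
  cluster : ∀ N : Set G, IsOpen N → N.Nonempty → ∃ᶠ u in 𝓝[>] 0, ω u ∈ N

/-- A dense one-parameter subgroup yields an oscillating function. -/
theorem exists_osc {G : Type u} [AddCommGroup G] [TopologicalSpace G] (j : ℝ →+ G)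
    (hj : Continuous j) (hd : DenseRange j) : ∃ ω : ℝ → G, Osc ω := by
  classical
  let ω : ℝ → G := fun u => if 0 < u then j (osc u) else 0
  have hω : ∀ u, 0 < u → ω u = j (osc u) := fun u hu => if_pos hu
  have hj0 : Tendsto j (𝓝 0) (𝓝 0) := by
    have := hj.tendsto 0
    rwa [map_zero] at this
  refine ⟨ω, fun u hu => if_neg (not_lt.2 hu), ?_, ?_, ?_, ?_⟩
  · exact (hj.comp_continuousOn continuousOn_osc).congr fun u hu => hω u hu
  · refine (hj0.comp osc_sq).congr' ?_
    filter_upwards [self_mem_nhdsWithin] with s hs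
    have hs' : (0 : ℝ) < s := hs
    rw [hω s hs', hω (s ^ 2) (by positivity), Function.comp_apply, map_add]
  · intro m hm
    have h1 : Tendsto (fun s : ℝ => s - m) (𝓝[>] m) (𝓝[>] 0) := by
      apply tendsto_nhdsWithin_iff.2
      constructor
      · have h2 : Tendsto (fun s : ℝ => s - m) (𝓝 m) (𝓝 (m - m)) := by
          exact (continuous_id.sub continuous_const).tendsto m
        rw [sub_self] at h2
        exact h2.mono_left nhdsWithin_le_nhds
      · filter_upwards [self_mem_nhdsWithin] with s hs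
        have hs' : m < s := hs
        exact sub_pos.2 hs'
    have h2 : Tendsto (fun s : ℝ => s + m) (𝓝[>] m) (𝓝 (m + m)) :=
      ((continuous_id.add continuous_const).tendsto m).mono_left nhdsWithin_le_nhds
    refine (hj0.comp (osc_scale h1 (by linarith) h2)).congr' ?_
    filter_upwards [self_mem_nhdsWithin] with s hs
    have hs' : m < s := hs
    have h3 : s ^ 2 - m ^ 2 = (s + m) * (s - m) := by ring
    have h4 : 0 < s - m := sub_pos.2 hs'
    have h5 : 0 < (s + m) * (s - m) := mul_pos (by linarith) h4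
    rw [Function.comp_apply, h3, hω _ h5, hω _ h4, map_sub]
  · intro N hN hne
    obtain ⟨x, hx⟩ := hd.exists_mem_open hN hne
    refine ((frequently_osc x).and_eventually self_mem_nhdsWithin).mono ?_
    rintro u ⟨hu, hu0⟩
    have hu0' : 0 < u := hu0
    rw [hω u hu0', hu]
    exact hx

end Q178.HNH
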