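import Pool.Agent.Q178.HNH.Defs
import Pool.Agent.Q178.HNH.Osc

set_option autoImplicit false
set_option linter.unusedSectionVars false
set_option linter.unusedVariables false

/-!
A homogeneous non-Hausdorff manifold built from an oscillating function.
-/

universe u

namespace Q178.HNH

open Set Filter Topology

variable {G : Type u} [AddCommGroup G] [TopologicalSpace G]

/-- The points of the manifold: a real number `s`, a finite subset `A` of `[s, ∞)`, and an
element of the group. -/
structure Mfd (ω : ℝ → G) : Type u where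
  /-- the height -/
  s : ℝ
  /-- the address -/
  A : Finset ℝ
  /-- the group coordinate -/
  g : G
  le : ∀ a ∈ A, s ≤ a

lemma Mfd.ext' {ω : ℝ → G} {z w : Mfd ω} (h1 : z.s = w.s) (h2 : z.A = w.A) (h3 : z.g = w.g) :
    z = w := by
  cases z
  cases w
  simp only at h1 h2 h3
  subst h1 h2 h3
  rfl

/-- The chart of a finite set. -/
noncomputable def chart (ω : ℝ → G) (B : Finset ℝ) (p : ℝ × G) : Mfd ω where
  s := p.1
  A := B.filter fun b => p.1 ≤ b
  g := p.2 - ∑ b ∈ B, ω (p.1 - b)
  le := fun _ ha => (Finset.mem_filter.1 ha).2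

noncomputable instance (ω : ℝ → G) : TopologicalSpace (Mfd ω) :=
  ⨆ B : Finset ℝ, TopologicalSpace.coinduced (chart ω B) inferInstance

lemma isOpen_iff {ω : ℝ → G} {U : Set (Mfd ω)} : IsOpen U ↔ ∀ B, IsOpen (chart ω B ⁻¹' U) := by
  rw [isOpen_iSup_iff]
  simp only [isOpen_coinduced]

lemma continuous_chart (ω : ℝ → G) (B : Finset ℝ) : Continuous (chart ω B) :=
  ⟨fun _ hU => isOpen_iff.1 hU B⟩

lemma continuous_of_chart {ω : ℝ → G} {Y : Type*} [TopologicalSpace Y] {f : Mfd ω → Y}
    (h : ∀ B, Continuous (f ∘ chart ω B)) : Continuous f :=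
  ⟨fun U hU => isOpen_iff.2 fun B => hU.preimage (h B)⟩

lemma chart_injective (ω : ℝ → G) (B : Finset ℝ) : Function.Injective (chart ω B) := by
  rintro ⟨s, g⟩ ⟨s', g'⟩ h
  have h1 : s = s' := congrArg Mfd.s h
  subst h1
  have h2 : g - ∑ b ∈ B, ω (s - b) = g' - ∑ b ∈ B, ω (s - b) := congrArg Mfd.g h
  rw [sub_left_inj] at h2
  rw [h2]

lemma continuous_s (ω : ℝ → G) : Continuous (Mfd.s : Mfd ω → ℝ) :=
  continuous_of_chart fun _ => continuous_fst

variable [IsTopologicalAddGroup G]

lemma isOpenMap_chart {ω : ℝ → G} (hω : Osc ω) (B : Finset ℝ) : IsOpenMap (chart ω B) := by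
  classical
  intro O hO
  rw [isOpen_iff]
  intro C
  -- the transition function
  let tr : ℝ × G → ℝ × G := fun p =>
    (p.1, p.2 - ∑ c ∈ C \ B, ω (p.1 - c) + ∑ b ∈ B \ C, ω (p.1 - b))
  have htr : ∀ p : ℝ × G, (tr p).2 - ∑ b ∈ B, ω (p.1 - b) = p.2 - ∑ c ∈ C, ω (p.1 - c) := by
    intro p
    have h1 : ∑ c ∈ C, ω (p.1 - c) = ∑ c ∈ C \ B, ω (p.1 - c) + ∑ c ∈ C ∩ B, ω (p.1 - c) := by
      rw [add_comm, Finset.sum_inter_add_sum_sdiff]
    have h2 : ∑ c ∈ B, ω (p.1 - c) = ∑ c ∈ B \ C, ω (p.1 - c) + ∑ c ∈ C ∩ B, ω (p.1 - c) := by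
      rw [Finset.inter_comm, add_comm, Finset.sum_inter_add_sum_sdiff]
    rw [h1, h2]
    simp only [tr]
    abel
  have hset : chart ω C ⁻¹' (chart ω B '' O) =
      {p | (∀ e ∈ (C \ B) ∪ (B \ C), e < p.1) ∧ tr p ∈ O} := by
    ext p
    constructor
    · rintro ⟨q, hq, hqp⟩
      have h1 : q.1 = p.1 := congrArg Mfd.s hqp
      have h2 : B.filter (fun b => q.1 ≤ b) = C.filter (fun b => p.1 ≤ b) := congrArg Mfd.A hqp
      have h3 : q.2 - ∑ b ∈ B, ω (q.1 - b) = p.2 - ∑ b ∈ C, ω (p.1 - b) := congrArg Mfd.g hqp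
      rw [h1] at h2 h3
      refine ⟨fun e he => ?_, ?_⟩
      · by_contra hle
        rw [not_lt] at hle
        rcases Finset.mem_union.1 he with he | he
        · obtain ⟨h4, h5⟩ := Finset.mem_sdiff.1 he
          have : e ∈ B.filter (fun b => p.1 ≤ b) := by
            rw [h2]
            exact Finset.mem_filter.2 ⟨h4, hle⟩
          exact h5 (Finset.mem_filter.1 this).1
        · obtain ⟨h4, h5⟩ := Finset.mem_sdiff.1 he
          have : e ∈ C.filter (fun b => p.1 ≤ b) := by
            rw [← h2]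
            exact Finset.mem_filter.2 ⟨h4, hle⟩
          exact h5 (Finset.mem_filter.1 this).1
      · have h4 : tr p = q := by
          apply Prod.ext
          · exact h1.symm
          · have h5 := htr p
            rw [← h3, sub_left_inj] at h5
            exact h5
        rw [h4]
        exact hq
    · rintro ⟨h1, h2⟩
      refine ⟨tr p, h2, ?_⟩
      apply Mfd.ext'
      · rfl
      · change B.filter (fun b => p.1 ≤ b) = C.filter (fun b => p.1 ≤ b)
        ext e
        simp only [Finset.mem_filter]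
        constructor
        · rintro ⟨he, hp⟩
          refine ⟨?_, hp⟩
          by_contra hC
          exact absurd (h1 e (Finset.mem_union_right _ (Finset.mem_sdiff.2 ⟨he, hC⟩)))
            (not_lt.2 hp)
        · rintro ⟨he, hp⟩
          refine ⟨?_, hp⟩
          by_contra hB
          exact absurd (h1 e (Finset.mem_union_left _ (Finset.mem_sdiff.2 ⟨he, hB⟩)))
            (not_lt.2 hp)
      · exact htr p
  rw [hset]
  have hV : IsOpen {p : ℝ × G | ∀ e ∈ (C \ B) ∪ (B \ C), e < p.1} := by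
    have : {p : ℝ × G | ∀ e ∈ (C \ B) ∪ (B \ C), e < p.1} =
        ⋂ e ∈ (C \ B) ∪ (B \ C), {p : ℝ × G | e < p.1} := by
      ext p
      simp
    rw [this]
    exact isOpen_biInter_finset fun e _ => isOpen_lt continuous_const continuous_fst
  have hcont : ContinuousOn tr {p : ℝ × G | ∀ e ∈ (C \ B) ∪ (B \ C), e < p.1} := by
    have hsum : ∀ D : Finset ℝ, D ⊆ (C \ B) ∪ (B \ C) →
        ContinuousOn (fun p : ℝ × G => ∑ e ∈ D, ω (p.1 - e))
          {p : ℝ × G | ∀ e ∈ (C \ B) ∪ (B \ C), e < p.1} := by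
      intro D hD
      apply continuousOn_finsetSum
      intro e he
      apply hω.cont.comp (by fun_prop)
      intro p hp
      exact sub_pos.2 (hp e (hD he))
    apply ContinuousOn.prodMk continuousOn_fst
    exact (continuousOn_snd.sub (hsum _ Finset.subset_union_left)).add
      (hsum _ Finset.subset_union_right)
  exact hcont.isOpen_inter_preimage hV hO

lemma isOpenEmbedding_chart {ω : ℝ → G} (hω : Osc ω) (B : Finset ℝ) :
    IsOpenEmbedding (chart ω B) :=
  .of_continuous_injective_isOpenMap (continuous_chart ω B) (chart_injective ω B)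
    (isOpenMap_chart hω B)

lemma chart_self {ω : ℝ → G} (hω : Osc ω) (z : Mfd ω) : chart ω z.A (z.s, z.g) = z := by
  apply Mfd.ext'
  · rfl
  · exact Finset.filter_true_of_mem z.le
  · change z.g - ∑ b ∈ z.A, ω (z.s - b) = z.g
    rw [Finset.sum_eq_zero, sub_zero]
    intro b hb
    exact hω.neg _ (sub_nonpos.2 (z.le b hb))

lemma nhds_eq {ω : ℝ → G} (hω : Osc ω) (z : Mfd ω) :
    𝓝 z = map (chart ω z.A) (𝓝 (z.s, z.g)) := by
  have := (isOpenEmbedding_chart hω z.A).map_nhds_eq (z.s, z.g)
  rw [this, chart_self hω]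

/-- A criterion for continuity at a point. -/
lemma continuousAt_of {ω : ℝ → G} (hω : Osc ω) {f : Mfd ω → Mfd ω} (z : Mfd ω)
    (h : ℝ × G → ℝ × G) (hh : Tendsto h (𝓝 (z.s, z.g)) (𝓝 ((f z).s, (f z).g)))
    (heq : ∀ᶠ p in 𝓝 (z.s, z.g), f (chart ω z.A p) = chart ω (f z).A (h p)) :
    ContinuousAt f z := by
  rw [ContinuousAt, nhds_eq hω z, nhds_eq hω (f z), tendsto_map'_iff]
  refine (tendsto_map.comp hh).congr' ?_
  filter_upwards [heq] with p hp
  exact hp.symm

/-! ### The maps -/

/-- Translation of the height. -/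
def transl (ω : ℝ → G) (t : ℝ) (z : Mfd ω) : Mfd ω where
  s := z.s + t
  A := z.A.map (addRightEmbedding t)
  g := z.g
  le := by
    intro a ha
    obtain ⟨b, hb, rfl⟩ := Finset.mem_map.1 ha
    exact add_le_add_left (z.le b hb) t

lemma transl_transl (ω : ℝ → G) (t t' : ℝ) (z : Mfd ω) :
    transl ω t (transl ω t' z) = transl ω (t' + t) z := by
  apply Mfd.ext'
  · exact add_assoc _ _ _
  · change (z.A.map (addRightEmbedding t')).map (addRightEmbedding t) =
      z.A.map (addRightEmbedding (t' + t))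
    rw [Finset.map_map]
    congr 1
    ext x
    simp [add_assoc]
  · rfl

lemma transl_zero (ω : ℝ → G) (z : Mfd ω) : transl ω 0 z = z := by
  apply Mfd.ext'
  · exact add_zero _
  · change z.A.map (addRightEmbedding 0) = z.A
    have : (addRightEmbedding (0 : ℝ)) = Function.Embedding.refl ℝ := by
      ext x
      simp
    rw [this, Finset.map_refl]
  · rfl

lemma transl_chart (ω : ℝ → G) (t : ℝ) (B : Finset ℝ) (p : ℝ × G) :
    transl ω t (chart ω B p) = chart ω (B.map (addRightEmbedding t)) (p.1 + t, p.2) := by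
  apply Mfd.ext'
  · rfl
  · change (B.filter fun b => p.1 ≤ b).map (addRightEmbedding t) =
      (B.map (addRightEmbedding t)).filter fun b => p.1 + t ≤ b
    rw [Finset.filter_map]
    congr 1
    ext b
    simp
  · change p.2 - ∑ b ∈ B, ω (p.1 - b) =
      p.2 - ∑ b ∈ B.map (addRightEmbedding t), ω (p.1 + t - b)
    rw [Finset.sum_map]
    congr 2
    funext b
    simp

lemma continuous_transl (ω : ℝ → G) (t : ℝ) : Continuous (transl ω t) := by
  apply continuous_of_chart
  intro B
  have : transl ω t ∘ chart ω B =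
      chart ω (B.map (addRightEmbedding t)) ∘ fun p : ℝ × G => (p.1 + t, p.2) := by
    funext p
    exact transl_chart ω t B p
  rw [this]
  exact (continuous_chart ω _).comp (by fun_prop)

/-- Translation of the height as a homeomorphism. -/
def translH (ω : ℝ → G) (t : ℝ) : Mfd ω ≃ₜ Mfd ω where
  toFun := transl ω t
  invFun := transl ω (-t)
  left_inv z := by rw [transl_transl, add_neg_cancel, transl_zero]
  right_inv z := by rw [transl_transl, neg_add_cancel, transl_zero]
  continuous_toFun := continuous_transl ω t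
  continuous_invFun := continuous_transl ω (-t)

/-- Translation of the group coordinate. -/
def rot (ω : ℝ → G) (c : G) (z : Mfd ω) : Mfd ω where
  s := z.s
  A := z.A
  g := z.g + c
  le := z.le

lemma continuous_rot (ω : ℝ → G) (c : G) : Continuous (rot ω c) := by
  apply continuous_of_chart
  intro B
  have : rot ω c ∘ chart ω B = chart ω B ∘ fun p : ℝ × G => (p.1, p.2 + c) := by
    funext p
    apply Mfd.ext'
    · rfl
    · rfl
    · change p.2 - ∑ b ∈ B, ω (p.1 - b) + c = p.2 + c - ∑ b ∈ B, ω (p.1 - b)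
      abel
  rw [this]
  exact (continuous_chart ω _).comp (by fun_prop)

/-- Translation of the group coordinate as a homeomorphism. -/
def rotH (ω : ℝ → G) (c : G) : Mfd ω ≃ₜ Mfd ω where
  toFun := rot ω c
  invFun := rot ω (-c)
  left_inv z := Mfd.ext' rfl rfl (add_neg_cancel_right _ _)
  right_inv z := Mfd.ext' rfl rfl (neg_add_cancel_right _ _)
  continuous_toFun := continuous_rot ω c
  continuous_invFun := continuous_rot ω (-c)

/-- The top of a point: the maximum of the address and the height. -/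
noncomputable def mx (B : Finset ℝ) (s : ℝ) : ℝ := (insert s B).max' (Finset.insert_nonempty _ _)

lemma le_mx (B : Finset ℝ) (s : ℝ) : s ≤ mx B s := Finset.le_max' _ _ (Finset.mem_insert_self _ _)

lemma le_mx' {B : Finset ℝ} (s : ℝ) {b : ℝ} (hb : b ∈ B) : b ≤ mx B s :=
  Finset.le_max' _ _ (Finset.mem_insert_of_mem hb)

lemma mx_mem (B : Finset ℝ) (s : ℝ) : mx B s = s ∨ mx B s ∈ B :=
  Finset.mem_insert.1 (Finset.max'_mem _ (Finset.insert_nonempty s B))

lemma mx_eq {B : Finset ℝ} {s m : ℝ} (h1 : s ≤ m) (h2 : ∀ b ∈ B, b ≤ m) (h3 : m = s ∨ m ∈ B) :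
    mx B s = m := by
  apply le_antisymm
  · rcases mx_mem B s with h | h
    · rw [h]
      exact h1
    · exact h2 _ h
  · rcases h3 with h | h
    · rw [h]
      exact le_mx B s
    · exact le_mx' s h

lemma mx_filter (B : Finset ℝ) (s : ℝ) : mx (B.filter fun b => s ≤ b) s = mx B s := by
  apply mx_eq (le_mx B s)
  · intro b hb
    exact le_mx' s (Finset.mem_filter.1 hb).1
  · rcases mx_mem B s with h | h
    · exact Or.inl h
    · exact Or.inr (Finset.mem_filter.2 ⟨h, le_mx B s⟩)

/-- Toggling the element `0` of the address. -/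
noncomputable def toggle (ω : ℝ → G) (z : Mfd ω) (h : z.s ≤ 0) : Mfd ω where
  s := z.s
  A := symmDiff z.A {0}
  g := z.g
  le := by
    intro a ha
    rcases Finset.mem_symmDiff.1 ha with h1 | h1
    · exact z.le a h1.1
    · rw [Finset.mem_singleton.1 h1.1]
      exact h

open Classical in
/-- The swap map. -/
noncomputable def sig (ω : ℝ → G) (r : ℝ → ℝ) (c : ℝ → G) (z : Mfd ω) : Mfd ω :=
  if h : mx z.A z.s ≤ 0 then toggle ω z ((le_mx _ _).trans h)
  else rot ω (c (mx z.A z.s)) (transl ω (r (mx z.A z.s) - mx z.A z.s) z)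

section sig

variable {ω : ℝ → G} {r : ℝ → ℝ} {c : ℝ → G}

lemma sig_low (z : Mfd ω) (h : mx z.A z.s ≤ 0) :
    sig ω r c z = toggle ω z ((le_mx _ _).trans h) := dif_pos h

lemma sig_high (z : Mfd ω) (h : 0 < mx z.A z.s) :
    sig ω r c z = rot ω (c (mx z.A z.s)) (transl ω (r (mx z.A z.s) - mx z.A z.s) z) :=
  dif_neg (not_le.2 h)

/-- The swap map in a chart, high case. -/
lemma sig_chart_high (B : Finset ℝ) (p : ℝ × G) {m : ℝ} (hm : mx B p.1 = m) (h : 0 < m) :
    sig ω r c (chart ω B p) =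
      chart ω (B.map (addRightEmbedding (r m - m))) (p.1 + (r m - m), p.2 + c m) := by
  have h1 : mx (chart ω B p).A (chart ω B p).s = m := (mx_filter B p.1).trans hm
  rw [sig_high _ (by rw [h1]; exact h), h1, transl_chart]
  apply Mfd.ext'
  · rfl
  · rfl
  · change p.2 - _ + c m = p.2 + c m - _
    abel

/-- The swap map in a chart, low case. -/
lemma sig_chart_low (hneg : ∀ u ≤ 0, ω u = 0) (B : Finset ℝ) (p : ℝ × G) (h : mx B p.1 ≤ 0) :
    sig ω r c (chart ω B p) = chart ω (symmDiff B {0}) p := by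
  classical
  have h1 : mx (chart ω B p).A (chart ω B p).s = mx B p.1 := mx_filter B p.1
  have hp : p.1 ≤ 0 := (le_mx _ _).trans h
  rw [sig_low _ (by rw [h1]; exact h)]
  apply Mfd.ext'
  · rfl
  · change symmDiff (B.filter fun b => p.1 ≤ b) {0} = (symmDiff B {0}).filter fun b => p.1 ≤ b
    ext b
    simp only [Finset.mem_symmDiff, Finset.mem_filter, Finset.mem_singleton]
    constructor
    · rintro (⟨⟨h2, h3⟩, h4⟩ | ⟨rfl, h3⟩)
      · exact ⟨Or.inl ⟨h2, h4⟩, h3⟩
      · exact ⟨Or.inr ⟨rfl, fun h4 => h3 ⟨h4, hp⟩⟩, hp⟩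
    · rintro ⟨h2 | ⟨rfl, h2⟩, h3⟩
      · exact Or.inl ⟨⟨h2.1, h3⟩, h2.2⟩
      · exact Or.inr ⟨rfl, fun h4 => h2 h4.1⟩
  · change p.2 - ∑ b ∈ B, ω (p.1 - b) = p.2 - ∑ b ∈ symmDiff B {0}, ω (p.1 - b)
    congr 1
    have h0 : ω (p.1 - 0) = 0 := hneg _ (by linarith)
    by_cases h2 : (0 : ℝ) ∈ B
    · have h3 : symmDiff B {0} = B.erase 0 := by
        ext b
        simp only [Finset.mem_symmDiff, Finset.mem_singleton, Finset.mem_erase]
        constructor
        · rintro (h | ⟨rfl, h⟩)
          · exact ⟨h.2, h.1⟩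
          · exact absurd h2 h
        · rintro ⟨h, h'⟩
          exact Or.inl ⟨h', h⟩
      rw [h3, ← Finset.add_sum_erase B _ h2, h0, zero_add]
    · have h3 : symmDiff B {0} = insert 0 B := by
        ext b
        simp only [Finset.mem_symmDiff, Finset.mem_singleton, Finset.mem_insert]
        constructor
        · rintro (h | ⟨rfl, h⟩)
          · exact Or.inr h.1
          · exact Or.inl rfl
        · rintro (rfl | h)
          · exact Or.inr ⟨rfl, h2⟩
          · refine Or.inl ⟨h, ?_⟩
            rintro rfl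
            exact h2 h
      rw [h3, Finset.sum_insert h2, h0, zero_add]

end sig

end Q178.HNH
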